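import Pool.Agent.Helper70.MM.Goals

/-! Packet MM-CRIT (project MM of helper70). -/

open MeasureTheory Set Metric
open scoped ENNReal
open Pool.Agent.Results.MP_91ee6f_gt
open Pool.Agent.Helper67.MaxMeas (bilX bil isMaximising_of_kkt bil_sub_nonneg eq_of_bil_sub_eq_zero)
open Pool.Agent.Helper70.MM

namespace Pool.Agent.Helper31.MM

variable {n : ℕ} {X : Set (En n)}

lemma emb_val (hX : IsCompact X) : MeasurableEmbedding (Subtype.val : X → En n) :=
  MeasurableEmbedding.subtype_coe hX.isClosed.measurableSet

lemma pot_subtype (hX : IsCompact X) (μ : Measure X) (x : X) :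
    potential μ x = potential (μ.map Subtype.val) (x : En n) := by
  unfold potential
  rw [(emb_val hX).integral_map]
  rfl

lemma bilX_sub (hX : IsCompact X) (μ ν : Measure X) :
    bilX μ ν = bil (μ.map Subtype.val) (ν.map Subtype.val) := by
  unfold bilX bil
  rw [(emb_val hX).integral_map]
  congr 1
  ext x
  rw [pot_subtype hX]
  rfl

lemma mem_supp (hX : IsCompact X) {μ : Measure X} {x : X} (hx : x ∈ μ.support) :
    (x : En n) ∈ (μ.map Subtype.val).support := by
  rw [Measure.support_eq_forall_isOpen] at hx ⊢
  intro U hxU hU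
  rw [(emb_val hX).map_apply]
  exact hx _ hxU (hU.preimage continuous_subtype_val)

theorem crit : CRIT := by
  intro n X hX w hwp hw c hc h1 h2
  have hcomp : CompactSpace X := isCompact_iff_compactSpace.1 hX
  have hmap : (w.comap (Subtype.val : X → En n)).map Subtype.val = w := by
    rw [(emb_val hX).map_comap, Subtype.range_coe]
    exact Measure.restrict_eq_self_of_ae_mem (by rw [ae_iff]; exact hw)
  have hprob : IsProbabilityMeasure (w.comap (Subtype.val : X → En n)) := by
    constructor
    have h3 : (w.comap (Subtype.val : X → En n)).map Subtype.val univ = w univ := by rw [hmap]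
    rw [(emb_val hX).map_apply, preimage_univ, measure_univ (μ := w)] at h3
    exact h3
  refine ⟨w.comap Subtype.val, hmap, ?_⟩
  refine isMaximising_of_kkt _ hc ?_ ?_ ?_ ?_
  · intro x
    rw [pot_subtype hX, hmap]
    exact h1 x x.2
  · intro x hx
    rw [pot_subtype hX, hmap]
    have := mem_supp hX hx
    rw [hmap] at this
    exact h2 x this
  · intro ν₁ ν₂ _ _
    rw [bilX_sub hX, bilX_sub hX, bilX_sub hX, bilX_sub hX]
    exact bil_sub_nonneg _ _
  · intro ν₁ ν₂ _ _ h
    rw [bilX_sub hX, bilX_sub hX, bilX_sub hX, bilX_sub hX] at h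
    have := eq_of_bil_sub_eq_zero _ _ h
    have h3 := congrArg (Measure.comap (Subtype.val : X → En n)) this
    rwa [(emb_val hX).comap_map, (emb_val hX).comap_map] at h3

end Pool.Agent.Helper31.MM
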